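import Pool.Agent.Results.MP_3122b6_ag.PrimePersistence

/-!
# Hypergraph Lovász–Saks–Schrijver ideals: complete intersections persist in `d`
-/

set_option autoImplicit false

open MvPolynomial Pool.Agent.Q271.LSS
open Pool.Agent.Results.MP_3122b6_ag.PrimePersistence
open RingTheory.Sequence

namespace Pool.Agent.Results.MP_3122b6_ag.CIPersistence

section general

variable {R : Type*} [CommRing R]

lemma wr_concat (l : List R) (a : R) : IsWeaklyRegular R (l ++ [a]) ↔
    IsWeaklyRegular R l ∧ ∀ x, a * x ∈ Ideal.ofList l → x ∈ Ideal.ofList l := by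
  rw [isWeaklyRegular_append_iff]
  refine and_congr Iff.rfl ?_
  rw [isWeaklyRegular_singleton_iff, isSMulRegular_iff_right_eq_zero_of_smul]
  constructor
  · intro h x hx
    have h1 := h (Submodule.Quotient.mk x)
    rw [← Submodule.Quotient.mk_smul, Submodule.Quotient.mk_eq_zero,
      Submodule.Quotient.mk_eq_zero] at h1
    rw [smul_eq_mul, smul_eq_mul, Ideal.mul_top] at h1
    exact h1 hx
  · intro h x hx
    obtain ⟨y, rfl⟩ := Submodule.Quotient.mk_surjective _ x
    rw [← Submodule.Quotient.mk_smul, Submodule.Quotient.mk_eq_zero] at hx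
    rw [Submodule.Quotient.mk_eq_zero]
    rw [smul_eq_mul, Ideal.mul_top] at hx ⊢
    exact h y hx

lemma ofList_perm {l l' : List R} (h : l.Perm l') : Ideal.ofList l = Ideal.ofList l' := by
  unfold Ideal.ofList
  congr 1
  ext x
  exact h.mem_iff

/-- An element of `(gs)` in a local ring is in `𝔪 (gs)` or some coefficient is a unit. -/
lemma unit_or (hloc : IsLocalRing R) (gs : List R) (c : R) (hc : c ∈ Ideal.ofList gs) :
    c ∈ IsLocalRing.maximalIdeal R * Ideal.ofList gs ∨
    ∃ (u : List R) (g : R) (w : List R) (α : R), gs = u ++ g :: w ∧ IsUnit α ∧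
      c - α * g ∈ Ideal.ofList (u ++ w) := by
  induction gs generalizing c with
  | nil =>
    left
    rw [Ideal.ofList_nil, Ideal.mem_bot] at hc
    rw [hc]; exact Ideal.zero_mem _
  | cons g gs ih =>
    rw [Ideal.ofList_cons] at hc
    obtain ⟨y, hy, z, hz, rfl⟩ := Submodule.mem_sup.1 hc
    obtain ⟨α, rfl⟩ := Ideal.mem_span_singleton'.1 hy
    by_cases hα : IsUnit α
    · right
      exact ⟨[], g, gs, α, rfl, hα, by simpa using hz⟩
    · rcases ih z hz with h | ⟨u, g', w, β, rfl, hβ, h⟩
      · left
        rw [Ideal.ofList_cons, Ideal.mul_sup]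
        refine Ideal.add_mem _ (Ideal.mem_sup_left ?_) (Ideal.mem_sup_right h)
        exact Ideal.mul_mem_mul ((IsLocalRing.mem_maximalIdeal α).2 hα)
          (Ideal.mem_span_singleton_self g)
      · right
        refine ⟨g :: u, g', w, β, rfl, hβ, ?_⟩
        rw [List.cons_append, Ideal.ofList_cons]
        have : α * g + z - β * g' = α * g + (z - β * g') := by ring
        rw [this]
        exact Ideal.add_mem _ (Ideal.mem_sup_left (Ideal.mul_mem_left _ _
          (Ideal.mem_span_singleton_self g))) (Ideal.mem_sup_right h)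

/-- In a Noetherian local ring, an irredundant system of generators of an ideal generated by a
regular sequence is a regular sequence. -/
theorem exchange [IsLocalRing R] [IsNoetherianRing R] (fs gs : List R)
    (hgs : ∀ g ∈ gs, g ∈ IsLocalRing.maximalIdeal R) (hreg : IsWeaklyRegular R gs)
    (hI : Ideal.ofList fs = Ideal.ofList gs)
    (hirr : ∀ l₁ a l₂, fs = l₁ ++ a :: l₂ → a ∉ Ideal.ofList (l₁ ++ l₂)) :
    IsWeaklyRegular R fs := by
  have hgm : Ideal.ofList gs ≤ IsLocalRing.maximalIdeal R := Ideal.span_le.2 hgs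
  have key : ∀ l₁ l₂ : List R, fs = l₁ ++ l₂ → ∃ gs' : List R, IsWeaklyRegular R (l₁ ++ gs') ∧
      Ideal.ofList (l₁ ++ gs') = Ideal.ofList fs := by
    intro l₁
    induction l₁ using List.reverseRecOn with
    | nil =>
      intro l₂ _
      exact ⟨gs, hreg, hI.symm⟩
    | append_singleton l₁ a ih =>
      intro l₂ hfs
      have hfs' : fs = l₁ ++ a :: l₂ := by rw [hfs]; simp
      obtain ⟨gs', h1, h2⟩ := ih (a :: l₂) hfs'
      have ha : a ∈ Ideal.ofList (l₁ ++ gs') := by
        rw [h2, hfs']
        exact Ideal.subset_span (by simp)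
      rw [Ideal.ofList_append] at ha
      obtain ⟨b, hb, c, hc, hbc⟩ := Submodule.mem_sup.1 ha
      rcases unit_or ‹_› gs' c hc with h | ⟨u, g, w, α, hgs', hα, h⟩
      · exfalso
        apply hirr l₁ a l₂ hfs'
        have h3 : Ideal.ofList gs' ≤ Ideal.ofList (l₁ ++ l₂) ⊔ Ideal.span {a} := by
          have h4 : Ideal.ofList gs' ≤ Ideal.ofList fs := by
            rw [← h2, Ideal.ofList_append]; exact le_sup_right
          refine h4.trans ?_
          rw [hfs', Ideal.ofList_append, Ideal.ofList_append, Ideal.ofList_cons]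
          refine sup_le (le_sup_left.trans le_sup_left) (sup_le le_sup_right ?_)
          exact le_sup_right.trans le_sup_left
        have h5 : c ∈ IsLocalRing.maximalIdeal R *
            (Ideal.ofList (l₁ ++ l₂) ⊔ Ideal.span {a}) := Ideal.mul_mono le_rfl h3 h
        rw [Ideal.mul_sup] at h5
        obtain ⟨x, hx, y, hy, hxy⟩ := Submodule.mem_sup.1 h5
        obtain ⟨m, hm, hma⟩ := Ideal.mem_mul_span_singleton.1 hy
        have hu : IsUnit (1 - m) := by
          by_contra hcon
          have h6 : (1 - m) ∈ IsLocalRing.maximalIdeal R := (IsLocalRing.mem_maximalIdeal _).2 hcon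
          have h7 := Ideal.add_mem _ h6 hm
          rw [sub_add_cancel] at h7
          exact (Ideal.ne_top_iff_one _).1 (IsLocalRing.maximalIdeal.isMaximal R).ne_top h7
        have hx' : x ∈ Ideal.ofList (l₁ ++ l₂) :=
          (Ideal.mul_le_right : IsLocalRing.maximalIdeal R * Ideal.ofList (l₁ ++ l₂) ≤ _) hx
        have hb' : b ∈ Ideal.ofList (l₁ ++ l₂) := by
          rw [Ideal.ofList_append]
          exact Ideal.mem_sup_left hb
        have h8 : (1 - m) * a ∈ Ideal.ofList (l₁ ++ l₂) := by
          have h9 : (1 - m) * a = b + x := by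
            rw [← hxy, ← hma] at hbc
            linear_combination -hbc
          rw [h9]
          exact Ideal.add_mem _ hb' hx'
        exact (Ideal.unit_mul_mem_iff_mem _ hu).1 h8
      · have hgmem : ∀ x ∈ l₁ ++ gs', x ∈ IsLocalRing.maximalIdeal R := by
          intro x hx
          apply hgm
          rw [← hI, ← h2]
          exact Ideal.subset_span hx
        have hp1 : (l₁ ++ gs').Perm ((l₁ ++ (u ++ w)) ++ [g]) := by
          rw [hgs']
          rw [List.append_assoc]
          refine List.Perm.append_left _ ?_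
          exact List.perm_middle.trans (List.perm_append_singleton g (u ++ w)).symm
        have h3 := IsLocalRing.isWeaklyRegular_of_perm_of_subset_maximalIdeal h1 hp1 hgmem
        rw [wr_concat] at h3
        have haJ : a - α * g ∈ Ideal.ofList (l₁ ++ (u ++ w)) := by
          have : a - α * g = b + (c - α * g) := by rw [← hbc]; ring
          rw [this, Ideal.ofList_append]
          exact Ideal.add_mem _ (Ideal.mem_sup_left hb) (Ideal.mem_sup_right h)
        have h4 : IsWeaklyRegular R ((l₁ ++ (u ++ w)) ++ [a]) := by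
          rw [wr_concat]
          refine ⟨h3.1, fun x hx => ?_⟩
          apply h3.2
          rw [← Ideal.unit_mul_mem_iff_mem _ hα]
          have : α * (g * x) = a * x - (a - α * g) * x := by ring
          rw [this]
          exact Ideal.sub_mem _ hx (Ideal.mul_mem_right _ _ haJ)
        have hI2 : Ideal.ofList ((l₁ ++ (u ++ w)) ++ [a]) = Ideal.ofList fs := by
          rw [← h2, ofList_perm hp1, Ideal.ofList_append, Ideal.ofList_append _ [g],
            Ideal.ofList_singleton, Ideal.ofList_singleton]
          apply le_antisymm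
          · refine sup_le le_sup_left ?_
            rw [Ideal.span_singleton_le_iff_mem]
            have : a = (a - α * g) + α * g := by ring
            rw [this]
            exact Ideal.add_mem _ (Ideal.mem_sup_left haJ) (Ideal.mem_sup_right
              (Ideal.mul_mem_left _ _ (Ideal.mem_span_singleton_self _)))
          · refine sup_le le_sup_left ?_
            rw [Ideal.span_singleton_le_iff_mem, ← Ideal.unit_mul_mem_iff_mem _ hα]
            have : α * g = a - (a - α * g) := by ring
            rw [this]
            exact Ideal.sub_mem _ (Ideal.mem_sup_right (Ideal.mem_span_singleton_self _))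
              (Ideal.mem_sup_left haJ)
        have hp2 : ((l₁ ++ (u ++ w)) ++ [a]).Perm ((l₁ ++ [a]) ++ (u ++ w)) := by
          rw [List.append_assoc l₁, List.append_assoc l₁]
          exact List.Perm.append_left _ List.perm_append_comm
        refine ⟨u ++ w, ?_, ?_⟩
        · refine IsLocalRing.isWeaklyRegular_of_perm_of_subset_maximalIdeal h4 hp2 ?_
          intro x hx
          apply hgm
          rw [← hI, ← hI2]
          exact Ideal.subset_span hx
        · rw [← ofList_perm hp2, hI2]
  obtain ⟨gs', h1, -⟩ := key fs [] (by simp)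
  exact ((isWeaklyRegular_append_iff _ _ _).1 h1).1

end general

section deloc

variable {σ k : Type*} [Field k]

/-- the maximal ideal of the origin -/
noncomputable abbrev orig (σ k : Type*) [Field k] : Ideal (MvPolynomial σ k) :=
  RingHom.ker (constantCoeff (R := k) (σ := σ))

instance : (orig σ k).IsPrime := RingHom.ker_isPrime _

/-- the local ring of the origin -/
abbrev Loc (σ k : Type*) [Field k] := Localization.AtPrime (orig σ k)

lemma mem_of_algebraMap_mem {fs : List (MvPolynomial σ k)}
    (hG : ∀ g ∈ fs, ∃ n, g.IsHomogeneous n) {x : MvPolynomial σ k}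
    (hx : algebraMap _ (Loc σ k) x ∈
      Ideal.ofList (fs.map (algebraMap (MvPolynomial σ k) (Loc σ k)))) :
    x ∈ Ideal.ofList fs := by
  rw [← Ideal.map_ofList, IsLocalization.algebraMap_mem_map_algebraMap_iff
    (orig σ k).primeCompl] at hx
  obtain ⟨s, hs, hsx⟩ := hx
  have hs0 : constantCoeff s ≠ 0 := fun h => hs ((RingHom.mem_ker).2 h)
  refine mem_of_mul_mem (G := {r | r ∈ fs}) hG (r := C (constantCoeff s)⁻¹ * s) ?_ ?_
  · rw [map_mul, constantCoeff_C, inv_mul_cancel₀ hs0]
  · rw [mul_assoc]
    exact Ideal.mul_mem_left _ _ hsx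

/-- A sequence of homogeneous polynomials is weakly regular as soon as it is weakly regular at
the origin. -/
lemma deloc (fs : List (MvPolynomial σ k)) (hG : ∀ g ∈ fs, ∃ n, g.IsHomogeneous n)
    (h : IsWeaklyRegular (Loc σ k) (fs.map (algebraMap (MvPolynomial σ k) (Loc σ k)))) :
    IsWeaklyRegular (MvPolynomial σ k) fs := by
  induction fs using List.reverseRecOn with
  | nil => exact IsWeaklyRegular.nil _ _
  | append_singleton l a ih =>
    rw [List.map_append, List.map_singleton, wr_concat] at h
    have hG' : ∀ g ∈ l, ∃ n, g.IsHomogeneous n := fun g hg => hG g (List.mem_append_left _ hg)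
    rw [wr_concat]
    refine ⟨ih hG' h.1, fun x hx => ?_⟩
    apply mem_of_algebraMap_mem hG'
    apply h.2
    rw [← map_mul, ← Ideal.map_ofList]
    exact Ideal.mem_map_of_mem _ hx

end deloc

section main

variable {k : Type*} [Field k] {V : Type*} [DecidableEq V] {d : ℕ} {E : Set (Finset V)}

omit [DecidableEq V] in
lemma ofList_edge (l : List (Finset V)) :
    Ideal.ofList (l.map (edgePoly k d)) = lss k d {B | B ∈ l} := by
  unfold lss Ideal.ofList
  congr 1
  ext x
  simp

lemma lss_le_orig (hE : IsClutter E) : lss k d E ≤ orig (V × Fin d) k :=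
  lss_le_ker _ fun _ hA => constantCoeff_edgePoly (hE.1 _ hA)

lemma map_mem_max {σ : Type*} {x : MvPolynomial σ k} (hx : x ∈ orig σ k) :
    algebraMap _ (Loc σ k) x ∈ IsLocalRing.maximalIdeal (Loc σ k) :=
  (IsLocalization.AtPrime.to_map_mem_maximal_iff (Loc σ k) (orig σ k) x).2 hx

/-- If `L_H(d)` is a complete intersection, then the generators `f_A`, in any order, form a
(weakly) regular sequence. -/
theorem gens_regular [Finite V] (hE : IsClutter E) (hd : 1 ≤ d)
    (h : IsCompleteIntersection (lss k d E)) (l : List (Finset V)) (hnd : l.Nodup)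
    (hl : ∀ A, A ∈ l ↔ A ∈ E) :
    IsWeaklyRegular (MvPolynomial (V × Fin d) k) (l.map (edgePoly k d)) := by
  obtain ⟨rs, hreg, hrs⟩ := h
  have hEl : {B | B ∈ l} = E := Set.ext hl
  have hhom : ∀ l' : List (Finset V), ∀ g ∈ l'.map (edgePoly k d), ∃ n, g.IsHomogeneous n := by
    intro l' g hg
    obtain ⟨A, -, rfl⟩ := List.mem_map.1 hg
    exact ⟨_, edgePoly_isHomogeneous A⟩
  apply deloc _ (hhom l)
  refine exchange _ (rs.map (algebraMap _ _)) ?_
    (hreg.toIsWeaklyRegular.of_isLocalization _ (orig (V × Fin d) k).primeCompl) ?_ ?_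
  · intro g hg
    obtain ⟨r, hr, rfl⟩ := List.mem_map.1 hg
    apply map_mem_max
    apply lss_le_orig hE
    rw [← hrs]
    exact Ideal.subset_span hr
  · rw [← Ideal.map_ofList, ← Ideal.map_ofList, hrs, ofList_edge, hEl]
  · intro l₁ a l₂ hdec hmem
    obtain ⟨m₁, m₂, hm, h1, h2⟩ := List.map_eq_append_iff.1 hdec
    obtain ⟨b, m₃, rfl, h3, h4⟩ := List.map_eq_cons_iff.1 h2
    obtain ⟨n₁, n₂, hn, h5, h6⟩ := List.map_eq_append_iff.1 hm
    obtain ⟨A, n₃, rfl, h7, h8⟩ := List.map_eq_cons_iff.1 h6
    subst h5 h7 h8 h1 h3 h4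
    rw [← List.map_append, ← List.map_append] at hmem
    have h9 := mem_of_algebraMap_mem (hhom _) hmem
    rw [ofList_edge] at h9
    have hAE : A ∈ E := (hl A).1 (by rw [hn]; simp)
    rw [hn] at hnd
    refine edgePoly_notMem_lss hE hd hAE ?_ ?_ h9
    · intro B hB
      apply (hl B).1
      rw [hn]
      simp only [Set.mem_ofPred_eq, List.mem_append, List.mem_cons] at hB ⊢
      tauto
    · intro hA
      exact (List.nodup_middle.1 hnd).notMem hA

omit [DecidableEq V] in
lemma ofList_gens (Z : List V) (l : List (Finset V)) :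
    Ideal.ofList (Z.map (fun v => (X (v, Fin.last d) : MvPolynomial (V × Fin (d + 1)) k)) ++
      l.map (edgePoly k (d + 1))) = Ideal.span (gens k d {v | v ∈ Z} {B | B ∈ l}) := by
  unfold Ideal.ofList gens
  congr 1
  ext x
  simp

omit [DecidableEq V] in
lemma span_gens_univ {E : Set (Finset V)} (hE : ∀ A ∈ E, A.Nonempty) :
    Ideal.span (gens k d (Set.univ : Set V) E) = (lss k d E).comap (piH k d) := by
  classical
  apply le_antisymm
  · rw [Ideal.span_le]
    rintro _ (⟨v, hv, rfl⟩ | ⟨A, hA, rfl⟩)
    · rw [SetLike.mem_coe, Ideal.mem_comap, piH_last]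
      exact Ideal.zero_mem _
    · rw [SetLike.mem_coe, Ideal.mem_comap, piH_edgePoly (hE A hA)]
      exact Ideal.subset_span ⟨A, hA, rfl⟩
  · intro t ht
    rw [Ideal.mem_comap] at ht
    set B := Ideal.span (gens k d (Set.univ : Set V) E) with hB
    have hX : ∀ v : V, (X (v, Fin.last d) : MvPolynomial (V × Fin (d + 1)) k) ∈ B := fun v =>
      Ideal.subset_span (Or.inl ⟨v, trivial, rfl⟩)
    have h1 : (Ideal.Quotient.mk B).comp ((iotaH k d).comp (piH k d)) =
        Ideal.Quotient.mk B := by
      apply MvPolynomial.ringHom_ext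
      · intro a
        rw [RingHom.comp_apply, RingHom.comp_apply, piH_C, iotaH_C]
      · rintro ⟨v, j⟩
        rw [RingHom.comp_apply, RingHom.comp_apply]
        refine Fin.lastCases ?_ (fun j => ?_) j
        · rw [piH_last, map_zero, map_zero]
          exact (Ideal.Quotient.eq_zero_iff_mem.2 (hX v)).symm
        · rw [piH_castSucc, iotaH_X]
    have h2 : lss k d E ≤ B.comap (iotaH k d) := by
      unfold lss
      rw [Ideal.span_le]
      rintro _ ⟨A, hA, rfl⟩
      rw [SetLike.mem_coe, Ideal.mem_comap]
      have h3 : edgePoly k (d + 1) A ∈ B := Ideal.subset_span (Or.inr ⟨A, hA, rfl⟩)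
      obtain ⟨a, ha⟩ := hE A hA
      have h4 : (∏ i ∈ A, X (i, Fin.last d) : MvPolynomial (V × Fin (d + 1)) k) ∈ B := by
        rw [← Finset.mul_prod_erase A _ ha]
        exact B.mul_mem_right _ (hX a)
      have h5 := B.sub_mem h3 h4
      rwa [iotaH_edgePoly, add_sub_cancel_right] at h5
    have h3 := h2 ht
    rw [Ideal.mem_comap] at h3
    have h4 := congrArg (fun f => f t) h1
    simp only [RingHom.comp_apply] at h4
    rw [Ideal.Quotient.eq_zero_iff_mem.2 h3] at h4
    exact Ideal.Quotient.eq_zero_iff_mem.1 h4.symm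

/-- Adding the variables of the last column gives a regular sequence. -/
theorem big_regular (hE : IsClutter E) (hd : 1 ≤ d) (Z : List V) (hZ : Z.Nodup)
    (hZu : ∀ v, v ∈ Z) (l : List (Finset V)) (hlE : ∀ A ∈ l, A ∈ E)
    (h : IsWeaklyRegular (MvPolynomial (V × Fin d) k) (l.map (edgePoly k d))) :
    IsWeaklyRegular (MvPolynomial (V × Fin (d + 1)) k)
      (Z.map (fun v => (X (v, Fin.last d) : MvPolynomial (V × Fin (d + 1)) k)) ++
        l.map (edgePoly k (d + 1))) := by
  have hZu' : {v | v ∈ Z} = (Set.univ : Set V) := Set.eq_univ_iff_forall.2 hZu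
  induction l using List.reverseRecOn with
  | nil =>
    clear hZu hZu' h hlE
    rw [List.map_nil, List.append_nil]
    induction Z using List.reverseRecOn with
    | nil => exact IsWeaklyRegular.nil _ _
    | append_singleton Z v ih =>
      rw [List.map_append, List.map_singleton, wr_concat]
      have hZ' := List.nodup_append.1 hZ
      refine ⟨ih hZ'.1, fun x hx => ?_⟩
      have h1 := ofList_gens (k := k) (d := d) Z ([] : List (Finset V))
      rw [List.map_nil, List.append_nil] at h1
      have h2 : {B : Finset V | B ∈ ([] : List (Finset V))} = (∅ : Set (Finset V)) := by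
        ext; simp
      rw [h2] at h1
      rw [h1] at hx ⊢
      have hpr := prime_vars (k := k) (d := d) {v | v ∈ Z}
      refine (hpr.mem_or_mem hx).resolve_left ?_
      refine X_notMem hE hd ?_ (Set.empty_subset _)
      intro hv
      exact hZ'.2.2 v hv v (by simp) rfl
  | append_singleton l A ih =>
    rw [List.map_append, List.map_singleton, wr_concat] at h
    rw [List.map_append, List.map_singleton, ← List.append_assoc, wr_concat]
    have hlE' : ∀ A ∈ l, A ∈ E := fun B hB => hlE B (List.mem_append_left _ hB)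
    refine ⟨ih hlE' h.1, fun x hx => ?_⟩
    have hA : A.Nonempty := hE.1 A (hlE A (by simp))
    have hlE2 : ∀ B ∈ {B | B ∈ l}, B.Nonempty := fun B hB => hE.1 B (hlE' B hB)
    rw [ofList_gens, hZu', span_gens_univ hlE2, Ideal.mem_comap] at hx ⊢
    rw [map_mul, piH_edgePoly hA] at hx
    rw [ofList_edge] at h
    exact h.2 _ hx

theorem ci_succ [Finite V] (hE : IsClutter E) (hd : 1 ≤ d)
    (h : IsCompleteIntersection (lss k d E)) : IsCompleteIntersection (lss k (d + 1) E) := by
  classical
  have : Fintype V := Fintype.ofFinite V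
  have hfin := Set.toFinite E
  set l : List (Finset V) := hfin.toFinset.toList with hl
  have hlmem : ∀ A, A ∈ l ↔ A ∈ E := fun A => by
    rw [hl, Finset.mem_toList, Set.Finite.mem_toFinset]
  have h1 := gens_regular hE hd h l (Finset.nodup_toList _) hlmem
  set Z : List V := (Finset.univ : Finset V).toList with hZ
  have h2 := big_regular (k := k) hE hd Z (Finset.nodup_toList _) (by simp [hZ]) l
    (fun A hA => (hlmem A).1 hA) h1
  have h3 := h2.of_isLocalization (Loc (V × Fin (d + 1)) k)
    (orig (V × Fin (d + 1)) k).primeCompl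
  rw [List.map_append] at h3
  have h4 := IsLocalRing.isWeaklyRegular_of_perm_of_subset_maximalIdeal h3
    List.perm_append_comm (by
      intro r hr
      rw [← List.map_append] at hr
      obtain ⟨g, hg, rfl⟩ := List.mem_map.1 hr
      apply map_mem_max
      rcases List.mem_append.1 hg with hg | hg
      · obtain ⟨v, -, rfl⟩ := List.mem_map.1 hg
        rw [RingHom.mem_ker]; simp
      · obtain ⟨A, hA, rfl⟩ := List.mem_map.1 hg
        rw [RingHom.mem_ker]
        exact constantCoeff_edgePoly (hE.1 _ ((hlmem A).1 hA)))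
  have h5 := ((isWeaklyRegular_append_iff _ _ _).1 h4).1
  have h6 := deloc _ (fun g hg => by
    obtain ⟨A, -, rfl⟩ := List.mem_map.1 hg
    exact ⟨_, edgePoly_isHomogeneous A⟩) h5
  have hof : Ideal.ofList (l.map (edgePoly k (d + 1))) = lss k (d + 1) E := by
    rw [ofList_edge]
    congr 1
    exact Set.ext hlmem
  refine ⟨l.map (edgePoly k (d + 1)), ⟨h6, ?_⟩, hof⟩
  rw [hof, smul_eq_mul, Ideal.mul_top]
  intro htop
  have h7 : (1 : MvPolynomial (V × Fin (d + 1)) k) ∈ orig (V × Fin (d + 1)) k := by
    apply lss_le_orig hE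
    rw [← htop]
    exact Submodule.mem_top
  rw [RingHom.mem_ker, map_one] at h7
  exact one_ne_zero h7

end main

/-- Q1: for a clutter `E` of nonempty subsets of a finite set `V`, `d ≥ 1` and a field `k`, if
`L_H(d)` is a complete intersection, then `L_H(d+1)` is a complete intersection. -/
theorem result (k : Type*) [Field k] (V : Type*) [Finite V] [DecidableEq V]
    (E : Set (Finset V)) (hE : IsClutter E) (d : ℕ) (hd : 1 ≤ d)
    (h : IsCompleteIntersection (lss k d E)) : IsCompleteIntersection (lss k (d + 1) E) :=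
  ci_succ hE hd h

end Pool.Agent.Results.MP_3122b6_ag.CIPersistence
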